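import Pool.Agent.helper75.HT.Main

/-!
# Plug : a uniform dyadic bound gives the frozen statement S05643

`Unif` is the uniform `L²` bound for the maximal hyperbolic sums of real functions on dyadic grids.
`S05643_of_uniform` derives the frozen statement `S05643` (with `p = 2`) from it.
-/

set_option autoImplicit false

namespace Pool.Agent.helper75.HU

open Finset MeasureTheory Pool.Agent.helper18.HC Pool.Agent.helper75.HT

/-- The uniform dyadic bound. -/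
def Unif : Prop := ∃ C : ℝ, 0 ≤ C ∧ ∀ (K L : ℕ) (Λ : Finset ℕ) (hΛ : Λ.Nonempty)
    (f : Dy K → Dy L → ℝ),
    ∑ x, ∑ y, (Λ.sup' hΛ fun n => |HypSum n f x y|) ^ 2 ≤ C * ∑ x, ∑ y, f x y ^ 2

theorem complex_hyp {C : ℝ} {K L : ℕ} (Λ : Finset ℕ) (hΛ : Λ.Nonempty)
    (hU : ∀ f : Dy K → Dy L → ℝ,
      ∑ x, ∑ y, (Λ.sup' hΛ fun n => |HypSum n f x y|) ^ 2 ≤ C * ∑ x, ∑ y, f x y ^ 2)
    (f : Dy K → Dy L → ℂ) :
    ∑ x, ∑ y, (Λ.sup' hΛ fun n => ‖HypSum n f x y‖) ^ 2 ≤ C * ∑ x, ∑ y, ‖f x y‖ ^ 2 := by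
  have h1 : ∀ x y, (Λ.sup' hΛ fun n => ‖HypSum n f x y‖) ^ 2 ≤
      (Λ.sup' hΛ fun n => |HypSum n (fun x y => (f x y).re) x y|) ^ 2 +
      (Λ.sup' hΛ fun n => |HypSum n (fun x y => (f x y).im) x y|) ^ 2 := by
    intro x y
    obtain ⟨n, hn, he⟩ := Finset.exists_mem_eq_sup' hΛ (fun n => ‖HypSum n f x y‖)
    rw [he, Complex.sq_norm, Complex.normSq_apply, re_hyp, im_hyp]
    have h2 := Finset.le_sup' (fun n => |HypSum n (fun x y => (f x y).re) x y|) hn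
    have h3 := Finset.le_sup' (fun n => |HypSum n (fun x y => (f x y).im) x y|) hn
    have h4 := pow_le_pow_left₀ (abs_nonneg _) h2 2
    have h5 := pow_le_pow_left₀ (abs_nonneg _) h3 2
    rw [sq_abs] at h4 h5
    nlinarith
  have h2 := hU (fun x y => (f x y).re)
  have h3 := hU (fun x y => (f x y).im)
  have hsum : ∑ x, ∑ y, ‖f x y‖ ^ 2 = ∑ x, ∑ y, (f x y).re ^ 2 + ∑ x, ∑ y, (f x y).im ^ 2 := by
    rw [← Finset.sum_add_distrib]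
    refine Finset.sum_congr rfl fun x _ => ?_
    rw [← Finset.sum_add_distrib]
    refine Finset.sum_congr rfl fun y _ => ?_
    rw [Complex.sq_norm, Complex.normSq_apply]
    ring
  calc ∑ x, ∑ y, (Λ.sup' hΛ fun n => ‖HypSum n f x y‖) ^ 2 ≤
      ∑ x, ∑ y, ((Λ.sup' hΛ fun n => |HypSum n (fun x y => (f x y).re) x y|) ^ 2 +
      (Λ.sup' hΛ fun n => |HypSum n (fun x y => (f x y).im) x y|) ^ 2) :=
        Finset.sum_le_sum fun x _ => Finset.sum_le_sum fun y _ => h1 x y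
    _ = ∑ x, ∑ y, (Λ.sup' hΛ fun n => |HypSum n (fun x y => (f x y).re) x y|) ^ 2 +
      ∑ x, ∑ y, (Λ.sup' hΛ fun n => |HypSum n (fun x y => (f x y).im) x y|) ^ 2 := by
        simp only [Finset.sum_add_distrib]
    _ ≤ C * ∑ x, ∑ y, (f x y).re ^ 2 + C * ∑ x, ∑ y, (f x y).im ^ 2 := add_le_add h2 h3
    _ = C * ∑ x, ∑ y, ‖f x y‖ ^ 2 := by
        rw [hsum]
        ring

theorem Grid_dyadic {C : ℝ} (hC : 0 ≤ C) (hU : ∀ (K L : ℕ) (Λ : Finset ℕ) (hΛ : Λ.Nonempty)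
    (f : Dy K → Dy L → ℝ),
    ∑ x, ∑ y, (Λ.sup' hΛ fun n => |HypSum n f x y|) ^ 2 ≤ C * ∑ x, ∑ y, f x y ^ 2)
    {K L : ℕ} (Λ : Finset ℤ) (G : Dy K → Dy L → ℂ) :
    ∃ ψ : Dy K → Dy L → ℝ, (∀ x y, 0 ≤ ψ x y) ∧ (∀ k ∈ Λ, ∀ x y, ‖HyZ k G x y‖ ≤ ψ x y) ∧
      ∑ x, ∑ y, ψ x y ^ 2 ≤ C * ∑ x, ∑ y, ‖G x y‖ ^ 2 := by
  classical
  set Λ' : Finset ℕ := (Λ.filter fun k => k < 0).image fun k => (-2 * k - 1).toNat with hΛ'
  have hG0 : 0 ≤ ∑ x, ∑ y, ‖G x y‖ ^ 2 := by positivity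
  by_cases hne : Λ'.Nonempty
  · refine ⟨fun x y => Λ'.sup' hne fun n => ‖HypSum n G x y‖, ?_, ?_, ?_⟩
    · intro x y
      obtain ⟨n, hn⟩ := hne
      exact (norm_nonneg _).trans (Finset.le_sup' (fun n => ‖HypSum n G x y‖) hn)
    · intro k hk x y
      by_cases hk0 : k < 0
      · have hm : (-2 * k - 1).toNat ∈ Λ' := by
          rw [hΛ', Finset.mem_image]
          exact ⟨k, Finset.mem_filter.2 ⟨hk, hk0⟩, rfl⟩
        rw [HyZ_neg hk0]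
        exact Finset.le_sup' (fun n => ‖HypSum n G x y‖) hm
      · rw [HyZ_nonneg (not_lt.1 hk0), norm_zero]
        obtain ⟨n, hn⟩ := hne
        exact (norm_nonneg _).trans (Finset.le_sup' (fun n => ‖HypSum n G x y‖) hn)
    · exact complex_hyp Λ' hne (hU K L Λ' hne) G
  · refine ⟨fun _ _ => 0, fun _ _ => le_rfl, ?_, ?_⟩
    · intro k hk x y
      have hk0 : 0 ≤ k := by
        by_contra h
        refine hne ⟨(-2 * k - 1).toNat, ?_⟩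
        rw [hΛ', Finset.mem_image]
        exact ⟨k, Finset.mem_filter.2 ⟨hk, not_le.1 h⟩, rfl⟩
      rw [HyZ_nonneg hk0, norm_zero]
    · have h1 : 0 ≤ C * ∑ x, ∑ y, ‖G x y‖ ^ 2 :=
        mul_nonneg hC hG0
      simpa using h1


theorem grid_max (hU : Unif) : ∃ C : ℝ, 0 ≤ C ∧ ∀ (Λ : Finset ℤ) (K L : ℕ)
    (G : Dy K → Dy L → ℂ),
    ∫⁻ x, (⨆ k ∈ Λ, ‖stp2 (HyZ k G) x‖ₑ) ^ 2 ≤ ENNReal.ofReal (C * nsq G) := by
  obtain ⟨C, hC, hU⟩ := hU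
  refine ⟨C, hC, fun Λ K L G => ?_⟩
  obtain ⟨ψ, hψ0, hψ, hsum⟩ := Grid_dyadic hC hU Λ G
  have hms : MeasurableSet (Set.Ico (0 : ℝ) 1 ×ˢ Set.Ico (0 : ℝ) 1) :=
    measurableSet_Ico.prod measurableSet_Ico
  calc ∫⁻ x, (⨆ k ∈ Λ, ‖stp2 (HyZ k G) x‖ₑ) ^ 2
      ≤ ∫⁻ x, (Set.Ico (0 : ℝ) 1 ×ˢ Set.Ico (0 : ℝ) 1).indicator
          (fun x : ℝ × ℝ => ENNReal.ofReal (ψ (dg K x.1) (dg L x.2) ^ 2)) x := by
        refine lintegral_mono fun x => ?_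
        by_cases hx : x ∈ Set.Ico (0 : ℝ) 1 ×ˢ Set.Ico (0 : ℝ) 1
        · rw [Set.indicator_of_mem hx]
          have hx' : (0 ≤ x.1 ∧ x.1 < 1) ∧ (0 ≤ x.2 ∧ x.2 < 1) := hx
          rw [ENNReal.ofReal_pow (hψ0 _ _)]
          refine pow_le_pow_left₀ zero_le ?_ 2
          refine iSup₂_le fun k hk => ?_
          unfold stp2
          rw [if_pos hx', ← ofReal_norm]
          exact ENNReal.ofReal_le_ofReal (hψ k hk _ _)
        · rw [Set.indicator_of_notMem hx]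
          have hx' : ¬((0 ≤ x.1 ∧ x.1 < 1) ∧ (0 ≤ x.2 ∧ x.2 < 1)) := hx
          have h0 : (⨆ k ∈ Λ, ‖stp2 (HyZ k G) x‖ₑ) = 0 := by
            refine le_antisymm (iSup₂_le fun k hk => ?_) zero_le
            unfold stp2
            rw [if_neg hx', enorm_zero]
          rw [h0]
          simp
    _ = ∫⁻ x in Set.Ico (0 : ℝ) 1 ×ˢ Set.Ico (0 : ℝ) 1,
          ENNReal.ofReal (ψ (dg K x.1) (dg L x.2) ^ 2) := lintegral_indicator hms _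
    _ = (∑ x, ∑ y, ENNReal.ofReal (ψ x y ^ 2)) / (2 ^ K * 2 ^ L) :=
        lintegral_dg2 fun x y => ENNReal.ofReal (ψ x y ^ 2)
    _ = ENNReal.ofReal ((∑ x, ∑ y, ψ x y ^ 2) / (2 ^ K * 2 ^ L)) := Grid_toReal ψ
    _ ≤ ENNReal.ofReal (C * nsq G) := by
        refine ENNReal.ofReal_le_ofReal ?_
        unfold nsq
        rw [← mul_div_assoc]
        exact div_le_div_of_nonneg_right hsum (by positivity)




private theorem Assemble_sq_add (a b : ENNReal) : (a + b) ^ 2 ≤ 4 * a ^ 2 + 4 * b ^ 2 := by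
  rcases le_total a b with h | h
  · calc (a + b) ^ 2 ≤ (b + b) ^ 2 := pow_le_pow_left' (add_le_add_left h b) 2
      _ = 4 * b ^ 2 := by ring
      _ ≤ 4 * a ^ 2 + 4 * b ^ 2 := le_add_self
  · calc (a + b) ^ 2 ≤ (a + a) ^ 2 := pow_le_pow_left' (add_le_add_right h a) 2
      _ = 4 * a ^ 2 := by ring
      _ ≤ 4 * a ^ 2 + 4 * b ^ 2 := le_self_add

private theorem Assemble_sup_sq (Λ : Finset ℤ) (a : ℤ → ENNReal) {M : ENNReal}
    (h : ∀ k ∈ Λ, a k ^ 2 ≤ M) : (⨆ k ∈ Λ, a k) ^ 2 ≤ M := by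
  have h1 : ∀ x : ENNReal, (x ^ 2) ^ (1 / 2 : ℝ) = x := by
    intro x
    rw [← ENNReal.rpow_natCast, ← ENNReal.rpow_mul]
    norm_num
  have h2 : (⨆ k ∈ Λ, a k) ≤ M ^ (1 / 2 : ℝ) := by
    refine iSup₂_le fun k hk => ?_
    rw [← h1 (a k)]
    exact ENNReal.rpow_le_rpow (h k hk) (by norm_num)
  calc (⨆ k ∈ Λ, a k) ^ 2 ≤ (M ^ (1 / 2 : ℝ)) ^ 2 := pow_le_pow_left' h2 2
    _ = M := by
      rw [← ENNReal.rpow_natCast, ← ENNReal.rpow_mul]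
      norm_num

private theorem Assemble_meas_FT {g : ℝ × ℝ → ℂ} (hg : Measurable g) : Measurable (FT g) := by
  have h1 : Measurable fun p : (ℝ × ℝ) × (ℝ × ℝ) =>
      Complex.exp (-(2 * (Real.pi : ℂ) * Complex.I * (((p.2.1 * p.1.1 + p.2.2 * p.1.2 : ℝ)) : ℂ))) *
        g p.2 := by
    refine Measurable.mul ?_ (hg.comp measurable_snd)
    have h2 : Continuous fun p : (ℝ × ℝ) × (ℝ × ℝ) =>
        Complex.exp (-(2 * (Real.pi : ℂ) * Complex.I *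
          (((p.2.1 * p.1.1 + p.2.2 * p.1.2 : ℝ)) : ℂ))) := by fun_prop
    exact h2.measurable
  exact (h1.stronglyMeasurable.integral_prod_right' (ν := volume)).measurable

private theorem Assemble_meas_IFT {g : ℝ × ℝ → ℂ} (hg : Measurable g) : Measurable (IFT g) := by
  have h1 : Measurable fun p : (ℝ × ℝ) × (ℝ × ℝ) =>
      Complex.exp (2 * (Real.pi : ℂ) * Complex.I * (((p.1.1 * p.2.1 + p.1.2 * p.2.2 : ℝ)) : ℂ)) *
        g p.2 := by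
    refine Measurable.mul ?_ (hg.comp measurable_snd)
    have h2 : Continuous fun p : (ℝ × ℝ) × (ℝ × ℝ) =>
        Complex.exp (2 * (Real.pi : ℂ) * Complex.I *
          (((p.1.1 * p.2.1 + p.1.2 * p.2.2 : ℝ)) : ℂ)) := by fun_prop
    exact h2.measurable
  exact (h1.stronglyMeasurable.integral_prod_right' (ν := volume)).measurable

private theorem Assemble_FT_const (c : ℂ) (g : ℝ × ℝ → ℂ) (ξ : ℝ × ℝ) :
    FT (fun x => c * g x) ξ = c * FT g ξ := by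
  unfold FT
  rw [← integral_const_mul]
  congr 1
  funext y
  ring

private theorem Assemble_bexp (g : ℝ × ℝ → ℂ) (ξ y : ℝ × ℝ) :
    ‖Complex.exp (-(2 * (Real.pi : ℂ) * Complex.I * (((y.1 * ξ.1 + y.2 * ξ.2 : ℝ)) : ℂ))) * g y‖ =
      ‖g y‖ := by
  have h1 : -(2 * (Real.pi : ℂ) * Complex.I * (((y.1 * ξ.1 + y.2 * ξ.2 : ℝ)) : ℂ)) =
      ((-(2 * Real.pi * (y.1 * ξ.1 + y.2 * ξ.2)) : ℝ) : ℂ) * Complex.I := by
    push_cast
    ring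
  rw [norm_mul, h1, Complex.norm_exp_ofReal_mul_I, one_mul]

private theorem Assemble_int {g : ℝ × ℝ → ℂ} (hg : Integrable g) (ξ : ℝ × ℝ) :
    Integrable fun y : ℝ × ℝ =>
      Complex.exp (-(2 * (Real.pi : ℂ) * Complex.I * (((y.1 * ξ.1 + y.2 * ξ.2 : ℝ)) : ℂ))) *
        g y := by
  refine hg.norm.mono' ?_ (Filter.Eventually.of_forall fun y => (Assemble_bexp g ξ y).le)
  refine AEStronglyMeasurable.mul ?_ hg.aestronglyMeasurable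
  have h2 : Continuous fun y : ℝ × ℝ =>
      Complex.exp (-(2 * (Real.pi : ℂ) * Complex.I *
        (((y.1 * ξ.1 + y.2 * ξ.2 : ℝ)) : ℂ))) := by fun_prop
  exact h2.aestronglyMeasurable

private theorem Assemble_FT_sub {g h : ℝ × ℝ → ℂ} (hg : Integrable g) (hh : Integrable h)
    (ξ : ℝ × ℝ) : FT (fun x => g x - h x) ξ = FT g ξ - FT h ξ := by
  unfold FT
  rw [← integral_sub (Assemble_int hg ξ) (Assemble_int hh ξ)]
  congr 1
  funext y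
  ring

private theorem Assemble_nsq {f : ℝ × ℝ → ℂ} (hf : Nice f) {K L : ℕ} (G : Dy K → Dy L → ℂ) :
    ENNReal.ofReal (nsq G) ≤ 4 * (∫⁻ x, ‖f x‖ₑ ^ 2) + 4 * ∫⁻ x, ‖f x - stp2 G x‖ₑ ^ 2 := by
  rw [← lintegral_stp2_sq]
  have hm1 : Measurable fun x => 4 * ‖f x‖ₑ ^ 2 :=
    ((hf.cont.measurable.enorm).pow_const 2).const_mul 4
  have hm2 : Measurable fun x => ‖f x‖ₑ ^ 2 := (hf.cont.measurable.enorm).pow_const 2
  have hm3 : Measurable fun x => ‖f x - stp2 G x‖ₑ ^ 2 :=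
    ((hf.cont.measurable.sub (measurable_stp2 G)).enorm).pow_const 2
  rw [← lintegral_const_mul 4 hm2, ← lintegral_const_mul 4 hm3, ← lintegral_add_left hm1]
  refine lintegral_mono fun x => ?_
  have h1 : ‖stp2 G x‖ₑ ≤ ‖f x‖ₑ + ‖f x - stp2 G x‖ₑ := by
    have h2 : stp2 G x = f x - (f x - stp2 G x) := by ring
    calc ‖stp2 G x‖ₑ = ‖f x - (f x - stp2 G x)‖ₑ := by rw [← h2]
      _ ≤ ‖f x‖ₑ + ‖f x - stp2 G x‖ₑ := enorm_sub_le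
  exact (pow_le_pow_left' h1 2).trans (Assemble_sq_add _ _)

private theorem Assemble_bdd (η0 : SchwartzMap ℝ ℂ) : ∃ C0 : ℝ, 0 ≤ C0 ∧ ∀ t, ‖η0 t‖ ≤ C0 := by
  refine ⟨SchwartzMap.seminorm ℝ 0 0 η0, apply_nonneg _ _, fun t => ?_⟩
  exact SchwartzMap.norm_le_seminorm ℝ η0 t

private theorem Assemble_R (η0 : SchwartzMap ℝ ℂ) {C0 : ℝ} (hC0 : 0 ≤ C0)
    (hC : ∀ t, ‖η0 t‖ ≤ C0) {f : ℝ × ℝ → ℂ} (hf : Nice f) {K L : ℕ} (G : Dy K → Dy L → ℂ)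
    (k : ℤ) :
    ∫⁻ x, ‖Tk η0 k f x - η0 0 * stp2 (HyZ k G) x‖ₑ ^ 2 ≤
      ENNReal.ofReal (4 * C0 ^ 2) * (∫⁻ x, ‖f x - stp2 G x‖ₑ ^ 2) +
      4 * ∫⁻ ξ : ℝ × ℝ, ‖η0 ((4 : ℝ) ^ k * ξ.1 * ξ.2) * FT (stp2 G) ξ -
        η0 0 * FT (stp2 (HyZ k G)) ξ‖ₑ ^ 2 := by
  have hηc : Continuous fun ξ : ℝ × ℝ => η0 ((4 : ℝ) ^ k * ξ.1 * ξ.2) :=
    η0.continuous.comp (by fun_prop)
  have huc : Continuous fun ξ : ℝ × ℝ => η0 ((4 : ℝ) ^ k * ξ.1 * ξ.2) * FT f ξ :=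
    hηc.mul hf.contF
  have hu1 : Integrable fun ξ : ℝ × ℝ => η0 ((4 : ℝ) ^ k * ξ.1 * ξ.2) * FT f ξ := by
    refine (hf.intF.norm.const_mul C0).mono' huc.aestronglyMeasurable
      (Filter.Eventually.of_forall fun ξ => ?_)
    rw [norm_mul]
    exact mul_le_mul_of_nonneg_right (hC _) (norm_nonneg _)
  have hu2 : MemLp (fun ξ : ℝ × ℝ => η0 ((4 : ℝ) ^ k * ξ.1 * ξ.2) * FT f ξ) 2 := by
    refine MemLp.of_le_mul (c := C0) hf.sqF huc.aestronglyMeasurable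
      (Filter.Eventually.of_forall fun ξ => ?_)
    rw [norm_mul]
    exact mul_le_mul_of_nonneg_right (hC _) (norm_nonneg _)
  have hg1 : Integrable fun x => η0 0 * stp2 (HyZ k G) x := (integrable_stp2 _).const_mul _
  have hg2 : MemLp (fun x => η0 0 * stp2 (HyZ k G) x) 2 := (memLp_stp2 _).const_mul _
  have hP := planch2 hu1 hu2 hg1 hg2
  have hd1 : Integrable fun x => f x - stp2 G x := hf.int.sub (integrable_stp2 G)
  have hd2 : MemLp (fun x => f x - stp2 G x) 2 := hf.sq.sub (memLp_stp2 G)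
  have hD := planch hd1 hd2
  have hFTS : Measurable (FT (stp2 G)) := Assemble_meas_FT (measurable_stp2 G)
  have hFTH : Measurable (FT (stp2 (HyZ k G))) := Assemble_meas_FT (measurable_stp2 _)
  have hm1 : Measurable fun ξ : ℝ × ℝ => ‖FT (fun x => f x - stp2 G x) ξ‖ₑ ^ 2 :=
    (Assemble_meas_FT (hf.cont.measurable.sub (measurable_stp2 G))).enorm.pow_const 2
  have hm2 : Measurable fun ξ : ℝ × ℝ =>
      ENNReal.ofReal (4 * C0 ^ 2) * ‖FT (fun x => f x - stp2 G x) ξ‖ₑ ^ 2 := hm1.const_mul _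
  have hm3 : Measurable fun ξ : ℝ × ℝ => ‖η0 ((4 : ℝ) ^ k * ξ.1 * ξ.2) * FT (stp2 G) ξ -
        η0 0 * FT (stp2 (HyZ k G)) ξ‖ₑ ^ 2 :=
    (((hηc.measurable.mul hFTS).sub (hFTH.const_mul _)).enorm).pow_const 2
  change ∫⁻ x, ‖IFT (fun ξ => η0 ((4 : ℝ) ^ k * ξ.1 * ξ.2) * FT f ξ) x -
    η0 0 * stp2 (HyZ k G) x‖ₑ ^ 2 ≤ _
  rw [hP, ← hD, ← lintegral_const_mul _ hm1, ← lintegral_const_mul _ hm3,
    ← lintegral_add_left hm2]
  refine lintegral_mono fun ξ => ?_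
  simp only
  rw [Assemble_FT_const, Assemble_FT_sub hf.int (integrable_stp2 G)]
  set a := η0 ((4 : ℝ) ^ k * ξ.1 * ξ.2) with ha
  have h1 : a * FT f ξ - η0 0 * FT (stp2 (HyZ k G)) ξ = a * (FT f ξ - FT (stp2 G) ξ) +
      (a * FT (stp2 G) ξ - η0 0 * FT (stp2 (HyZ k G)) ξ) := by ring
  rw [h1]
  refine (pow_le_pow_left' (enorm_add_le _ _) 2).trans ((Assemble_sq_add _ _).trans ?_)
  refine add_le_add ?_ le_rfl
  have h2 : ‖a‖ₑ ≤ ENNReal.ofReal C0 := by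
    rw [← ofReal_norm]
    exact ENNReal.ofReal_le_ofReal (hC _)
  rw [enorm_mul, mul_pow, ← mul_assoc]
  refine mul_le_mul_left ?_ _
  rw [ENNReal.ofReal_mul (by norm_num), ENNReal.ofReal_pow hC0]
  refine mul_le_mul' ?_ (pow_le_pow_left' h2 2)
  norm_num

theorem assemble (hU : Unif) (η0 : SchwartzMap ℝ ℂ) : ∃ C : ℝ, 0 ≤ C ∧ ∀ N : ℕ, 1 ≤ N → ∃ B : ℝ, 0 ≤ B ∧
    ∀ (Λ : Finset ℤ) (_ : Λ.card = N) (f : ℝ × ℝ → ℂ) (_ : Nice f) (K L : ℕ)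
      (G : Dy K → Dy L → ℂ),
    ∫⁻ x, (⨆ k ∈ Λ, ‖Tk η0 k f x‖ₑ) ^ 2 ≤
      ENNReal.ofReal C * (∫⁻ x, ‖f x‖ₑ ^ 2) +
        ENNReal.ofReal B * ∫⁻ x, ‖f x - stp2 G x‖ₑ ^ 2 := by
  obtain ⟨C0, hC0, hC⟩ := Assemble_bdd η0
  obtain ⟨Cf, hCf, hfreq⟩ := freq η0
  obtain ⟨Cg, hCg, hgrid⟩ := grid_max hU
  set D : ℝ := 4 * ‖η0 0‖ ^ 2 * Cg + 16 * Cf with hD
  have hD0 : 0 ≤ D := by positivity
  refine ⟨4 * D, by positivity, fun N hN => ?_⟩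
  refine ⟨4 * D + 16 * C0 ^ 2 * N, by positivity, ?_⟩
  intro Λ hΛ f hf K L G
  have hΛne : Λ.Nonempty := by
    rw [← Finset.card_pos]
    omega
  set I : ENNReal := ∫⁻ x, ‖f x - stp2 G x‖ₑ ^ 2 with hI
  set Fn : ENNReal := ∫⁻ x, ‖f x‖ₑ ^ 2 with hFn
  set R : ℤ → ℝ × ℝ → ℂ := fun k x => Tk η0 k f x - η0 0 * stp2 (HyZ k G) x with hR
  have hTm : ∀ k, Measurable (Tk η0 k f) := by
    intro k
    refine Assemble_meas_IFT ?_
    have hηc : Continuous fun ξ : ℝ × ℝ => η0 ((4 : ℝ) ^ k * ξ.1 * ξ.2) :=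
      η0.continuous.comp (by fun_prop)
    exact (hηc.mul hf.contF).measurable
  have hRm : ∀ k, Measurable fun x => ‖R k x‖ₑ ^ 2 := by
    intro k
    exact (((hTm k).sub ((measurable_stp2 _).const_mul _)).enorm).pow_const 2
  have hSm : Measurable fun x => (⨆ k ∈ Λ, ‖stp2 (HyZ k G) x‖ₑ) ^ 2 := by
    refine Measurable.pow_const ?_ 2
    refine Measurable.iSup fun k => ?_
    exact Measurable.iSup_Prop _ (measurable_stp2 _).enorm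
  -- pointwise bound
  have hpt : ∀ x, (⨆ k ∈ Λ, ‖Tk η0 k f x‖ₑ) ^ 2 ≤
      4 * ‖η0 0‖ₑ ^ 2 * (⨆ k ∈ Λ, ‖stp2 (HyZ k G) x‖ₑ) ^ 2 + 4 * ∑ k ∈ Λ, ‖R k x‖ₑ ^ 2 := by
    intro x
    refine Assemble_sup_sq Λ _ fun k hk => ?_
    have h1 : Tk η0 k f x = η0 0 * stp2 (HyZ k G) x + R k x := by
      simp only [hR]
      ring
    have h2 : ‖stp2 (HyZ k G) x‖ₑ ≤ ⨆ k ∈ Λ, ‖stp2 (HyZ k G) x‖ₑ :=
      le_iSup₂ (f := fun k (_ : k ∈ Λ) => ‖stp2 (HyZ k G) x‖ₑ) k hk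
    have h3 : ‖R k x‖ₑ ^ 2 ≤ ∑ k ∈ Λ, ‖R k x‖ₑ ^ 2 :=
      Finset.single_le_sum (f := fun k => ‖R k x‖ₑ ^ 2) (fun _ _ => zero_le) hk
    rw [h1]
    refine (pow_le_pow_left' (enorm_add_le _ _) 2).trans ((Assemble_sq_add _ _).trans ?_)
    refine add_le_add ?_ ?_
    · rw [enorm_mul, mul_pow, mul_assoc]
      gcongr
    · gcongr
  have hstep1 : ∫⁻ x, (⨆ k ∈ Λ, ‖Tk η0 k f x‖ₑ) ^ 2 ≤
      4 * ‖η0 0‖ₑ ^ 2 * (∫⁻ x, (⨆ k ∈ Λ, ‖stp2 (HyZ k G) x‖ₑ) ^ 2) +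
        4 * ∑ k ∈ Λ, ∫⁻ x, ‖R k x‖ₑ ^ 2 := by
    refine (lintegral_mono hpt).trans (le_of_eq ?_)
    rw [lintegral_add_left (hSm.const_mul _), lintegral_const_mul _ hSm, lintegral_const_mul _
      (Finset.measurable_fun_sum _ fun k _ => hRm k), lintegral_finsetSum _ fun k _ => hRm k]
  have hstep2 : ∑ k ∈ Λ, ∫⁻ x, ‖R k x‖ₑ ^ 2 ≤
      ENNReal.ofReal (4 * C0 ^ 2 * N) * I + 4 * ENNReal.ofReal (Cf * nsq G) := by
    calc ∑ k ∈ Λ, ∫⁻ x, ‖R k x‖ₑ ^ 2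
        ≤ ∑ k ∈ Λ, (ENNReal.ofReal (4 * C0 ^ 2) * I +
          4 * ∫⁻ ξ : ℝ × ℝ, ‖η0 ((4 : ℝ) ^ k * ξ.1 * ξ.2) * FT (stp2 G) ξ -
            η0 0 * FT (stp2 (HyZ k G)) ξ‖ₑ ^ 2) :=
          Finset.sum_le_sum fun k _ => Assemble_R η0 hC0 hC hf G k
      _ = ENNReal.ofReal (4 * C0 ^ 2 * N) * I + 4 * ∑ k ∈ Λ,
          ∫⁻ ξ : ℝ × ℝ, ‖η0 ((4 : ℝ) ^ k * ξ.1 * ξ.2) * FT (stp2 G) ξ -
            η0 0 * FT (stp2 (HyZ k G)) ξ‖ₑ ^ 2 := by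
          rw [Finset.sum_add_distrib, Finset.sum_const, hΛ, Finset.mul_sum, nsmul_eq_mul,
            ENNReal.ofReal_mul (p := 4 * C0 ^ 2) (by positivity), ENNReal.ofReal_natCast]
          ring
      _ ≤ ENNReal.ofReal (4 * C0 ^ 2 * N) * I + 4 * ENNReal.ofReal (Cf * nsq G) := by
          gcongr
          exact hfreq Λ K L G
  have hnsq0 : 0 ≤ nsq G := by
    unfold nsq
    positivity
  have hnsq := Assemble_nsq hf G
  have hgr := hgrid Λ K L G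
  have hη : ‖η0 0‖ₑ ^ 2 = ENNReal.ofReal (‖η0 0‖ ^ 2) := by
    rw [← ofReal_norm, ENNReal.ofReal_pow (norm_nonneg _)]
  have hstep3 : ∫⁻ x, (⨆ k ∈ Λ, ‖Tk η0 k f x‖ₑ) ^ 2 ≤
      ENNReal.ofReal D * ENNReal.ofReal (nsq G) + ENNReal.ofReal (16 * C0 ^ 2 * N) * I := by
    refine hstep1.trans ?_
    calc 4 * ‖η0 0‖ₑ ^ 2 * (∫⁻ x, (⨆ k ∈ Λ, ‖stp2 (HyZ k G) x‖ₑ) ^ 2) +
          4 * ∑ k ∈ Λ, ∫⁻ x, ‖R k x‖ₑ ^ 2
        ≤ 4 * ‖η0 0‖ₑ ^ 2 * ENNReal.ofReal (Cg * nsq G) +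
          4 * (ENNReal.ofReal (4 * C0 ^ 2 * N) * I + 4 * ENNReal.ofReal (Cf * nsq G)) := by
          gcongr
      _ = ENNReal.ofReal ((4 * ‖η0 0‖ ^ 2 * Cg + 16 * Cf) * nsq G) +
          ENNReal.ofReal (16 * C0 ^ 2 * N) * I := by
          rw [hη]
          have e4 : (4 : ENNReal) = ENNReal.ofReal 4 := by norm_num
          rw [e4, mul_add, ← mul_assoc (ENNReal.ofReal 4) (ENNReal.ofReal (4 * C0 ^ 2 * N)) I,
            ← ENNReal.ofReal_mul (by norm_num), ← ENNReal.ofReal_mul (by positivity),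
            ← ENNReal.ofReal_mul (by norm_num), ← ENNReal.ofReal_mul (by norm_num),
            ← ENNReal.ofReal_mul (by norm_num), add_left_comm,
            ← ENNReal.ofReal_add (by positivity) (by positivity), add_comm]
          congr 2
          · ring_nf
          · ring
      _ ≤ ENNReal.ofReal D * ENNReal.ofReal (nsq G) +
          ENNReal.ofReal (16 * C0 ^ 2 * N) * I := by
          rw [← ENNReal.ofReal_mul hD0]
  refine hstep3.trans ?_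
  calc ENNReal.ofReal D * ENNReal.ofReal (nsq G) + ENNReal.ofReal (16 * C0 ^ 2 * N) * I
      ≤ ENNReal.ofReal D * (4 * Fn + 4 * I) + ENNReal.ofReal (16 * C0 ^ 2 * N) * I := by
        gcongr
    _ = ENNReal.ofReal (4 * D) * Fn +
        ENNReal.ofReal (4 * D + 16 * C0 ^ 2 * N) * I := by
        have e1 : ENNReal.ofReal (4 * D) = 4 * ENNReal.ofReal D := by
          rw [ENNReal.ofReal_mul (by norm_num)]
          norm_num
        rw [ENNReal.ofReal_add (p := 4 * D) (q := 16 * C0 ^ 2 * N) (by positivity)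
          (by positivity), e1]
        ring


theorem main (hU : Unif) (η0 : SchwartzMap ℝ ℂ) : ∃ C : ℝ, 0 ≤ C ∧ ∀ (Λ : Finset ℤ)
    (f : SchwartzMap (ℝ × ℝ) ℂ),
    ∫⁻ x : ℝ × ℝ, (⨆ k ∈ Λ, ‖Tk η0 k f x‖ₑ) ^ 2 ≤
      ENNReal.ofReal C * ∫⁻ x : ℝ × ℝ, ‖f x‖ₑ ^ 2 := by
  obtain ⟨C, hC0, hC⟩ := assemble hU η0
  refine ⟨C, hC0, fun Λ f => ?_⟩
  have hf : Nice f := nice_schwartz f
  rcases Λ.eq_empty_or_nonempty with hΛ | hΛ
  · subst hΛ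
    have h0 : ∀ x : ℝ × ℝ, (⨆ k ∈ (∅ : Finset ℤ), ‖Tk η0 k f x‖ₑ) ^ 2 = 0 := by
      intro x
      simp
    simp only [h0, lintegral_zero]
    exact zero_le
  obtain ⟨B, hB0, hB⟩ := hC Λ.card hΛ.card_pos
  refine ENNReal.le_of_forall_pos_le_add fun ε hε _ => ?_
  have hε' : (0 : ENNReal) < ENNReal.ofReal ((ε : ℝ) / (B + 1)) := by
    rw [ENNReal.ofReal_pos]
    have : (0 : ℝ) < ε := by exact_mod_cast hε
    positivity
  obtain ⟨s, K, G, hG⟩ := approx hf.cont hf.sq hε'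
  have hcard : (Λ.image (fun k => k - (s : ℤ))).card = Λ.card :=
    card_image_of_injective _ (sub_left_injective)
  rw [max_sc η0 Λ s hf]
  refine (hB _ hcard (sc s f) (nice_sc s hf) K K G).trans ?_
  rw [lintegral_sc_sq s hf.cont]
  refine add_le_add le_rfl ((mul_le_mul_right hG _).trans ?_)
  rw [← ENNReal.ofReal_mul hB0]
  have h1 : B * ((ε : ℝ) / (B + 1)) ≤ ε := by
    have h2 : (0 : ℝ) ≤ ε := ε.2
    rw [mul_div_assoc', div_le_iff₀ (by positivity)]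
    nlinarith
  refine (ENNReal.ofReal_le_ofReal h1).trans (le_of_eq ?_)
  exact ENNReal.ofReal_coe_nnreal



theorem S05643_of_uniform (hU : Unif) :
    ∀ η0 : SchwartzMap ℝ ℂ, η0 0 ≠ 0 →
      ∃ p : ℝ, 1 < p ∧ ∃ C : ℝ, ∀ f : SchwartzMap (ℝ × ℝ) ℂ,
        ∫⁻ x : ℝ × ℝ,
            (⨆ k : ℤ,
              ‖∫ ξ : ℝ × ℝ,
                  Complex.exp (2 * (Real.pi : ℂ) * Complex.I * (((x.1 * ξ.1 + x.2 * ξ.2 : ℝ)) : ℂ)) *
                    η0 ((4 : ℝ) ^ k * ξ.1 * ξ.2) *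
                    ∫ y : ℝ × ℝ,
                      Complex.exp (-(2 * (Real.pi : ℂ) * Complex.I * (((y.1 * ξ.1 + y.2 * ξ.2 : ℝ)) : ℂ))) * f y‖ₑ) ^ p
          ≤ ENNReal.ofReal C * ∫⁻ x : ℝ × ℝ, ‖f x‖ₑ ^ p := by
  intro η0 _
  obtain ⟨C, hC0, hC⟩ := main hU η0
  refine ⟨2, by norm_num, C, fun f => ?_⟩
  have hT : ∀ (k : ℤ) (x : ℝ × ℝ), (∫ ξ : ℝ × ℝ,
      Complex.exp (2 * (Real.pi : ℂ) * Complex.I * (((x.1 * ξ.1 + x.2 * ξ.2 : ℝ)) : ℂ)) *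
        η0 ((4 : ℝ) ^ k * ξ.1 * ξ.2) *
        ∫ y : ℝ × ℝ,
          Complex.exp (-(2 * (Real.pi : ℂ) * Complex.I * (((y.1 * ξ.1 + y.2 * ξ.2 : ℝ)) : ℂ))) * f y) =
      Tk η0 k f x := by
    intro k x
    simp only [Tk, IFT, FT, mul_assoc]
  simp only [hT]
  have hf : Nice f := nice_schwartz f
  have hmeas : ∀ k : ℤ, Measurable fun x : ℝ × ℝ => ‖Tk η0 k f x‖ₑ := fun k =>
    (continuous_Tk η0 k hf).measurable.enorm
  have hpow : ∀ a : ENNReal, a ^ (2 : ℝ) = a ^ 2 := fun a => ENNReal.rpow_two a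
  simp only [hpow]
  -- exhaust `ℤ` by the intervals `[-n, n]`
  have hpt : ∀ x : ℝ × ℝ, (⨆ k : ℤ, ‖Tk η0 k f x‖ₑ) ^ 2 =
      ⨆ n : ℕ, (⨆ k ∈ Finset.Icc (-(n : ℤ)) n, ‖Tk η0 k f x‖ₑ) ^ 2 := by
    intro x
    have h1 : (⨆ k : ℤ, ‖Tk η0 k f x‖ₑ) =
        ⨆ n : ℕ, ⨆ k ∈ Finset.Icc (-(n : ℤ)) n, ‖Tk η0 k f x‖ₑ := by
      refine le_antisymm (iSup_le fun k => ?_) (iSup_le fun n => iSup₂_le fun k _ =>
          le_iSup (fun k : ℤ => ‖Tk η0 k f x‖ₑ) k)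
      refine le_iSup_of_le k.natAbs (le_iSup₂_of_le k ?_ le_rfl)
      rw [Finset.mem_Icc]
      omega
    rw [h1]
    have hmono : Monotone fun n : ℕ => ⨆ k ∈ Finset.Icc (-(n : ℤ)) n, ‖Tk η0 k f x‖ₑ := by
      intro a b hab
      refine iSup₂_le fun k hk => le_iSup₂_of_le k ?_ le_rfl
      rw [Finset.mem_Icc] at hk ⊢
      have : (a : ℤ) ≤ b := by exact_mod_cast hab
      omega
    have hc : Continuous fun a : ENNReal => a ^ 2 := ENNReal.continuous_pow 2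
    have hm : Monotone fun a : ENNReal => a ^ 2 := fun a b h => pow_le_pow_left' h 2
    exact hm.map_iSup_of_continuousAt hc.continuousAt (by simp)
  simp only [hpt]
  rw [lintegral_iSup]
  · exact iSup_le fun n => hC (Finset.Icc (-(n : ℤ)) n) f
  · intro n
    refine Measurable.pow_const ?_ 2
    refine Measurable.iSup fun k => ?_
    exact Measurable.iSup_Prop _ (hmeas k)
  · intro a b hab x
    refine pow_le_pow_left' (iSup₂_le fun k hk => ?_) 2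
    refine le_iSup₂ (f := fun (k : ℤ) (_ : k ∈ Finset.Icc (-(b : ℤ)) b) => ‖Tk η0 k f x‖ₑ) k ?_
    rw [Finset.mem_Icc] at hk ⊢
    have : (a : ℤ) ≤ b := by exact_mod_cast hab
    omega

end Pool.Agent.helper75.HU
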